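import Pool.Agent.Run7.h800.RG.Stm

/-!
# Project RG: pieces FIL
-/

set_option autoImplicit false

namespace Run7.h660.RG

open MeasureTheory ProbabilityTheory Set Filter Topology
open scoped ENNReal NNReal
open Run7.h800.RG

theorem NN_pos : ∀ n : ℕ, 0 < NN n
  | 0 => Nat.one_pos
  | n + 1 => Nat.mul_pos (NN_pos n) (by unfold mm; omega)

theorem mm_pos (n : ℕ) : 0 < mm n := by unfold mm; omega

theorem measurable_ix (n : ℕ) : Measurable (ix n) := by
  unfold ix
  exact Nat.measurable_floor.comp (measurable_id.mul_const _)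

theorem gt_succ (n i : ℕ) : gt (n + 1) (mm n * i) = gt n i := by
  unfold gt
  have h1 : (mm n : ℝ≥0) ≠ 0 := by
    have := mm_pos n
    exact_mod_cast this.ne'
  show ((mm n * i : ℕ) : ℝ≥0) / ((NN n * mm n : ℕ) : ℝ≥0) = _
  rw [Nat.cast_mul, Nat.cast_mul, mul_comm (NN n : ℝ≥0), mul_div_mul_left _ _ h1]

theorem ix_succ (hARI : S_ARI) (n : ℕ) (u : ℝ) : ix (n + 1) u / mm n = ix n u := by
  rcases le_or_gt 0 u with h | h
  · exact hARI.2.2.2.2.1 n u h
  · have h1 : ∀ k, ix k u = 0 := fun k => by
      unfold ix
      exact Nat.floor_of_nonpos (mul_nonpos_of_nonpos_of_nonneg h.le (Nat.cast_nonneg _))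
    rw [h1, h1, Nat.zero_div]

theorem t_FIL (hARI : S_ARI) (hCDF : S_CDF) : S_FIL := by
  intro Ω₀ _ PB W hW
  have hM : ∀ t : ℝ≥0, Measurable (M W t) := fun t => by
    unfold M
    exact ((hW.meas t).comp measurable_fst).add ((hCDF.2.2.2.2.1 (t : ℝ)).comp measurable_snd)
  have hdM : ∀ n i, Measurable (dM W n i) := fun n i => (hM _).sub (hM _)
  have hPhi : ∀ n, Measurable (Phi W n) := fun n => by
    unfold Phi
    refine ((measurable_ix n).comp measurable_fst).prodMk (measurable_pi_iff.2 fun i => ?_)
    refine Measurable.ite ?_ ((hdM n i).comp measurable_snd) measurable_const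
    exact measurableSet_lt measurable_const ((measurable_ix n).comp measurable_fst)
  refine ⟨fun n => (hPhi n).comap_le, fun n => ?_, hM, fun ω => ?_, fun ω => ?_⟩
  · -- `Phi n` is a function of `Phi (n + 1)`
    let G : ℕ × (ℕ → ℝ) → ℕ × (ℕ → ℝ) := fun q =>
      (q.1 / mm n, fun i => if i < q.1 / mm n then ∑ l ∈ Finset.range (mm n), q.2 (mm n * i + l) else 0)
    have hG : Measurable G := by
      have h1 : Measurable fun q : ℕ × (ℕ → ℝ) => q.1 / mm n :=
        (measurable_from_nat (f := fun k : ℕ => k / mm n)).comp measurable_fst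
      refine h1.prodMk (measurable_pi_iff.2 fun i => ?_)
      refine Measurable.ite (measurableSet_lt measurable_const h1) ?_ measurable_const
      exact Finset.measurable_sum _ fun l _ => (measurable_pi_apply _).comp measurable_snd
    have hcomp : Phi W n = G ∘ Phi W (n + 1) := by
      funext p
      show (ix n p.1, fun i => if i < ix n p.1 then dM W n i p.2 else 0) =
        (ix (n + 1) p.1 / mm n, fun i => if i < ix (n + 1) p.1 / mm n then
          ∑ l ∈ Finset.range (mm n), (if mm n * i + l < ix (n + 1) p.1 then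
            dM W (n + 1) (mm n * i + l) p.2 else 0) else 0)
      rw [ix_succ hARI]
      refine Prod.ext rfl (funext fun i => ?_)
      show (if i < ix n p.1 then dM W n i p.2 else 0) = if i < ix n p.1 then
          ∑ l ∈ Finset.range (mm n), (if mm n * i + l < ix (n + 1) p.1 then
            dM W (n + 1) (mm n * i + l) p.2 else 0) else 0
      by_cases hi : i < ix n p.1
      · rw [if_pos hi, if_pos hi]
        have h2 : ∀ l ∈ Finset.range (mm n), (if mm n * i + l < ix (n + 1) p.1 then
            dM W (n + 1) (mm n * i + l) p.2 else 0) =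
            M W (gt (n + 1) (mm n * i + (l + 1))) p.2 - M W (gt (n + 1) (mm n * i + l)) p.2 := by
          intro l hl
          rw [Finset.mem_range] at hl
          rw [if_pos]
          · rfl
          · have h3 : mm n * (i + 1) ≤ mm n * (ix (n + 1) p.1 / mm n) := by
              rw [ix_succ hARI]
              exact Nat.mul_le_mul_left _ hi
            have h4 := Nat.mul_div_le (ix (n + 1) p.1) (mm n)
            have h5 : mm n * (i + 1) = mm n * i + mm n := by ring
            omega
        rw [Finset.sum_congr rfl h2,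
          Finset.sum_range_sub (fun l => M W (gt (n + 1) (mm n * i + l)) p.2)]
        have h6 : mm n * i + mm n = mm n * (i + 1) := by ring
        show dM W n i p.2 = _
        rw [h6, gt_succ, show mm n * i + 0 = mm n * i from rfl, gt_succ]
        rfl
      · rw [if_neg hi, if_neg hi]
    unfold Pn
    rw [hcomp, ← MeasurableSpace.comap_comp]
    exact MeasurableSpace.comap_mono hG.comap_le
  · show Continuous fun t : ℝ≥0 => W t ω.1 + A ω.2 t
    exact (hW.cont ω.1).add ((hCDF.1 ω.2).comp NNReal.continuous_coe)
  · show W 0 ω.1 + A ω.2 ((0 : ℝ≥0) : ℝ) = 0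
    rw [hW.zero, NNReal.coe_zero, hCDF.2.2.1, add_zero]

end Run7.h660.RG
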