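import Pool.Agent.Run7.h800.RG.Stm

/-!
# Project RG: piece TWR
-/

set_option autoImplicit false

namespace Run7.h660.RG.TW

open MeasureTheory ProbabilityTheory Set Filter Topology
open scoped ENNReal NNReal
open Run7.h800.RG

theorem NN_pos : ∀ n : ℕ, 0 < NN n
  | 0 => Nat.one_pos
  | n + 1 => Nat.mul_pos (NN_pos n) (by unfold mm; omega)

theorem mm_pos (n : ℕ) : 0 < mm n := by unfold mm; omega

theorem measurable_ix (n : ℕ) : Measurable (ix n) := by
  unfold ix
  exact Nat.measurable_floor.comp (measurable_id.mul_const _)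

/-- splitting of a range -/
theorem sum_range_mul (F : ℕ → ℝ) (m : ℕ) : ∀ k : ℕ,
    ∑ i ∈ Finset.range (k * m), F i = ∑ j ∈ Finset.range k, ∑ i ∈ Finset.range m, F (m * j + i)
  | 0 => by simp
  | k + 1 => by
    rw [add_mul, one_mul, Finset.sum_range_add, sum_range_mul F m k, Finset.sum_range_succ,
      mul_comm k m]

theorem ix_lt (n : ℕ) {u : ℝ} (hu : u ∈ Ico (0 : ℝ) 1) : ix n u < NN n := by
  unfold ix
  rw [Nat.floor_lt (mul_nonneg hu.1 (Nat.cast_nonneg _))]
  have h : (0 : ℝ) < NN n := by exact_mod_cast NN_pos n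
  nlinarith [hu.2]

theorem ix_eq_iff (n j : ℕ) {u : ℝ} (hu : 0 ≤ u) :
    ix n u = j ↔ u ∈ Ico ((j : ℝ) / NN n) (((j : ℝ) + 1) / NN n) := by
  unfold ix
  have h : (0 : ℝ) < NN n := by exact_mod_cast NN_pos n
  rw [Nat.floor_eq_iff (mul_nonneg hu (Nat.cast_nonneg _)), mem_Ico, div_le_iff₀ h, lt_div_iff₀ h]

/-- integral of a step function -/
theorem integral_step (n : ℕ) (g : ℕ → ℝ) :
    ∫ u in Ico (0 : ℝ) 1, g (ix n u) = (1 / (NN n : ℝ)) * ∑ j ∈ Finset.range (NN n), g j := by
  have h : (0 : ℝ) < NN n := by exact_mod_cast NN_pos n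
  have h1 : ∫ u in Ico (0 : ℝ) 1, g (ix n u) = ∫ u in Ico (0 : ℝ) 1,
      ∑ j ∈ Finset.range (NN n),
        (Ico ((j : ℝ) / NN n) (((j : ℝ) + 1) / NN n)).indicator (fun _ => g j) u := by
    refine setIntegral_congr_fun measurableSet_Ico fun u hu => ?_
    show g (ix n u) = _
    rw [Finset.sum_eq_single (ix n u)]
    · rw [indicator_of_mem ((ix_eq_iff n _ hu.1).1 rfl)]
    · intro j _ hj
      exact indicator_of_notMem (fun h2 => hj ((ix_eq_iff n j hu.1).2 h2).symm) _
    · intro h2
      exact absurd (Finset.mem_range.2 (ix_lt n hu)) h2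
  rw [h1, integral_finsetSum]
  · rw [Finset.mul_sum]
    refine Finset.sum_congr rfl fun j hj => ?_
    rw [Finset.mem_range] at hj
    have hj' : (j : ℝ) + 1 ≤ NN n := by exact_mod_cast hj
    have h3 : Ico ((j : ℝ) / NN n) (((j : ℝ) + 1) / NN n) ⊆ Ico (0 : ℝ) 1 := by
      apply Ico_subset_Ico
      · positivity
      · rw [div_le_one h]
        exact hj'
    rw [setIntegral_indicator measurableSet_Ico, inter_eq_self_of_subset_right h3,
      setIntegral_const, Measure.real, Real.volume_Ico, smul_eq_mul, ENNReal.toReal_ofReal]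
    · congr 1
      ring
    · rw [← sub_div, add_sub_cancel_left]
      positivity
  · intro j _
    exact (integrable_const _).indicator measurableSet_Ico

theorem isProb_PE : IsProbabilityMeasure PE := by
  constructor
  unfold PE
  rw [Measure.add_apply, Measure.smul_apply, Measure.smul_apply, measure_univ,
    Measure.restrict_apply_univ, Real.volume_Ico]
  simp only [sub_zero, ENNReal.ofReal_one, smul_eq_mul, mul_one]
  exact ENNReal.inv_two_add_inv_two

variable {Ω₀ : Type} [MeasurableSpace Ω₀]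

theorem measurable_fn (hARI : S_ARI) (n : ℕ) :
    Measurable (fn n : ℝ × (Ω₀ × ℝ) → ℝ) := by
  have h1 : Measurable fun q : ℝ × ℕ => w n q.1 q.2 :=
    measurable_from_prod_countable_left fun j => hARI.2.2.2.1 n j
  have h2 : Measurable fun p : ℝ × (Ω₀ × ℝ) => (p.2.2, ix n p.1) :=
    (measurable_snd.comp measurable_snd).prodMk ((measurable_ix n).comp measurable_fst)
  exact (h1.comp h2).const_mul _

theorem t_TWR (hARI : S_ARI) (hFIL : S_FIL) : S_TWR := by
  intro Ω₀ _ PB W hW
  have := hW.prob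
  have := isProb_PE
  have : IsFiniteMeasure (Q PB) := by
    unfold Q
    infer_instance
  have hint : ∀ n, Integrable (fn n) (Q PB) := fun n => by
    refine Integrable.of_bound (measurable_fn hARI n).aestronglyMeasurable
      ((NN n : ℝ) * (1 / 3) ^ n) (Eventually.of_forall fun p => ?_)
    have h1 := hARI.2.2.1 n p.2.2 (ix n p.1)
    unfold fn
    rw [Real.norm_of_nonneg (mul_nonneg (Nat.cast_nonneg _) h1.1)]
    exact mul_le_mul_of_nonneg_left h1.2 (Nat.cast_nonneg _)
  refine ⟨hint, fun n B hB => ?_⟩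
  have hB' : MeasurableSet B := (hFIL Ω₀ _ PB W hW).1 n B hB
  obtain ⟨C, hC, rfl⟩ := hB
  classical
  rw [← integral_indicator hB', ← integral_indicator hB']
  unfold Q
  have hi : ∀ k, Integrable ((Phi W n ⁻¹' C).indicator (fn k))
      ((volume.restrict (Ico (0 : ℝ) 1)).prod (PB.prod PE)) := fun k => (hint k).indicator hB'
  rw [integral_prod_symm _ (hi _), integral_prod_symm _ (hi _)]
  congr 1
  funext ω
  -- the indicator as a function of the index
  let c : ℕ → ℝ := fun j => if (j, fun i => if i < j then dM W n i ω else 0) ∈ C then 1 else 0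
  have hc : ∀ (k : ℕ) (u : ℝ), (Phi W n ⁻¹' C).indicator (fn k) (u, ω) =
      c (ix n u) * ((NN k : ℝ) * w k ω.2 (ix k u)) := fun k u => by
    show (if (u, ω) ∈ Phi W n ⁻¹' C then fn k (u, ω) else 0) = _
    by_cases h : (u, ω) ∈ Phi W n ⁻¹' C
    · have h' : c (ix n u) = 1 := if_pos h
      rw [if_pos h, h', one_mul]
      rfl
    · have h' : c (ix n u) = 0 := if_neg h
      rw [if_neg h, h', zero_mul]
  have hN1 : ((NN n : ℕ) : ℝ) ≠ 0 := by exact_mod_cast (NN_pos n).ne'
  have hN2 : ((NN (n + 1) : ℕ) : ℝ) ≠ 0 := by exact_mod_cast (NN_pos (n + 1)).ne'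
  have hR : ∫ u in Ico (0 : ℝ) 1, (Phi W n ⁻¹' C).indicator (fn n) (u, ω) =
      ∑ j ∈ Finset.range (NN n), c j * w n ω.2 j := by
    have h1 := integral_step n fun j => c j * ((NN n : ℝ) * w n ω.2 j)
    rw [Finset.mul_sum] at h1
    calc ∫ u in Ico (0 : ℝ) 1, (Phi W n ⁻¹' C).indicator (fn n) (u, ω)
        = ∫ u in Ico (0 : ℝ) 1, c (ix n u) * ((NN n : ℝ) * w n ω.2 (ix n u)) := by
          congr 1
          funext u
          exact hc n u
      _ = _ := h1
      _ = _ := Finset.sum_congr rfl fun j _ => by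
          field_simp
  have hL : ∫ u in Ico (0 : ℝ) 1, (Phi W n ⁻¹' C).indicator (fn (n + 1)) (u, ω) =
      ∑ j ∈ Finset.range (NN n), c j * w n ω.2 j := by
    have h1 := integral_step (n + 1) fun N => c (N / mm n) * ((NN (n + 1) : ℝ) * w (n + 1) ω.2 N)
    rw [Finset.mul_sum] at h1
    calc ∫ u in Ico (0 : ℝ) 1, (Phi W n ⁻¹' C).indicator (fn (n + 1)) (u, ω)
        = ∫ u in Ico (0 : ℝ) 1, c (ix (n + 1) u / mm n) *
            ((NN (n + 1) : ℝ) * w (n + 1) ω.2 (ix (n + 1) u)) := by
          refine setIntegral_congr_fun measurableSet_Ico fun u hu => ?_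
          show (Phi W n ⁻¹' C).indicator (fn (n + 1)) (u, ω) = _
          rw [hc, hARI.2.2.2.2.1 n u hu.1]
      _ = _ := h1
      _ = ∑ N ∈ Finset.range (NN n * mm n), c (N / mm n) * w (n + 1) ω.2 N :=
          Finset.sum_congr rfl fun j _ => by field_simp
      _ = ∑ j ∈ Finset.range (NN n), c j * w n ω.2 j := by
          rw [sum_range_mul]
          refine Finset.sum_congr rfl fun j _ => ?_
          rw [← hARI.1 n ω.2 j, Finset.mul_sum]
          refine Finset.sum_congr rfl fun i hi => ?_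
          rw [Finset.mem_range] at hi
          rw [Nat.mul_add_div (mm_pos n), Nat.div_eq_of_lt hi, Nat.add_zero]
  rw [hL, hR]

end Run7.h660.RG.TW
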